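import Pool.Agent.Helper84.AA.Defs

/-!
# EX: E1, E3, E4 (products of trace polynomials and the polynomial `ww`)
-/

set_option autoImplicit false

open Polynomial

namespace Pool.Agent.Helper19.EX

open Pool.Agent.Helper84.AA

/-- `(T - 1) (T ^ 3 - 3 q T - q)`: `frob` is `(T ^ 2 - T + q) (T ^ 6 - q T ^ 3 + q ^ 3)`. -/
noncomputable def ww (q : ℕ) : ℤ[X] := (X - 1) * (X ^ 3 - C (3 * (q : ℤ)) * X - C (q : ℤ))

/-- E1: closed under multiplication. -/
theorem isTrace_mul {q m n : ℕ} {u v : ℤ[X]} (hu : IsTrace q m u) (hv : IsTrace q n v) :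
    IsTrace q (m + n) (u * v) := by
  refine ⟨hu.1.mul hv.1, ?_, fun z hz => ?_⟩
  · rw [hu.1.natDegree_mul hv.1, hu.2.1, hv.2.1]
  · rw [map_mul, mul_eq_zero] at hz
    rcases hz with hz | hz
    · exact hu.2.2 z hz
    · exact hv.2.2 z hz

private lemma eval_frob (q : ℕ) (h : ℤ[X]) (x : ℂ) (hx : x ≠ 0) :
    ((frob q h).map (Int.castRingHom ℂ)).eval x =
      x ^ h.natDegree * (h.map (Int.castRingHom ℂ)).eval (x + q / x) := by
  rw [eval_map, eval_map]
  unfold frob
  rw [eval₂_finsetSum, eval₂_eq_sum_range, Finset.mul_sum]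
  refine Finset.sum_congr rfl fun j hj => ?_
  rw [Finset.mem_range] at hj
  simp only [eval₂_mul, eval₂_C, eval₂_pow, eval₂_X, eval₂_add]
  have h1 : x ^ 2 + (Int.castRingHom ℂ) (q : ℤ) = x * (x + q / x) := by
    simp only [eq_intCast, Int.cast_natCast]
    field_simp
  have h2 : x ^ h.natDegree = x ^ (h.natDegree - j) * x ^ j := by
    rw [← pow_add]
    congr 1
    omega
  rw [h1, h2, mul_pow]
  ring

private lemma eq_of_eval {f g : ℤ[X]}
    (h : ∀ x : ℂ, x ≠ 0 → (f.map (Int.castRingHom ℂ)).eval x = (g.map (Int.castRingHom ℂ)).eval x) :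
    f = g := by
  apply map_injective (Int.castRingHom ℂ) Int.cast_injective
  refine eq_of_infinite_eval_eq _ _ (Set.Infinite.mono (s := {x : ℂ | x ≠ 0}) ?_ ?_)
  · intro x hx
    exact h x hx
  · exact Set.Finite.infinite_compl (Set.finite_singleton 0)

/-- E3. -/
theorem frob_mul (q : ℕ) {u v : ℤ[X]} (hu : u.Monic) (hv : v.Monic) :
    frob q (u * v) = frob q u * frob q v := by
  refine eq_of_eval fun x hx => ?_
  rw [Polynomial.map_mul, eval_mul, eval_frob q _ x hx, eval_frob q _ x hx, eval_frob q _ x hx,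
    hu.natDegree_mul hv, Polynomial.map_mul, eval_mul, pow_add]
  ring

private lemma cubic_deg (q : ℕ) :
    (X ^ 3 - C (3 * (q : ℤ)) * X - C (q : ℤ) : ℤ[X]).natDegree = 3 ∧
      (X ^ 3 - C (3 * (q : ℤ)) * X - C (q : ℤ) : ℤ[X]).Monic := by
  constructor
  · compute_degree!
  · monicity!

/-- E4. -/
theorem frob_ww (q : ℕ) :
    frob q (ww q) = (X ^ 2 - X + C (q : ℤ)) * (X ^ 6 - C (q : ℤ) * X ^ 3 + C ((q : ℤ) ^ 3)) := by
  have hm : (X - 1 : ℤ[X]).Monic := monic_X_sub_C 1
  have hd : (X - 1 : ℤ[X]).natDegree = 1 := natDegree_X_sub_C 1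
  have hdeg : (ww q).natDegree = 4 := by
    unfold ww
    rw [hm.natDegree_mul (cubic_deg q).2, hd, (cubic_deg q).1]
  refine eq_of_eval fun x hx => ?_
  rw [eval_frob q _ x hx, hdeg]
  unfold ww
  simp only [Polynomial.map_mul, Polynomial.map_sub, Polynomial.map_add, Polynomial.map_pow, map_X,
    Polynomial.map_one, Polynomial.map_C, eval_mul, eval_sub, eval_add, eval_pow, eval_X, eval_one,
    eval_C]
  simp only [eq_intCast, Int.cast_mul, Int.cast_pow, Int.cast_natCast, Int.cast_ofNat]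
  field_simp
  ring

end Pool.Agent.Helper19.EX
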