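import Pool.Agent.Helper86.XE.LowBad
import Pool.Agent.Helper83.EX.EX1

/-!
# EX: E5 (the share of the tuples with `ww q ∣ h i`)
-/

set_option autoImplicit false

open Polynomial

namespace Pool.Agent.Helper19.EX

open Pool.Agent.Helper84.AA
open Pool.Agent.Helper86.XE (trace_ratio)

theorem trace_ratio4 {q : ℕ} (hq : 16 ≤ q) : ∃ C : ℝ, 0 < C ∧ ∃ G : ℕ, ∀ n ≥ G + 4,
    Real.exp (-(C * n)) * ((traceSet q n).ncard : ℝ) ≤ ((traceSet q (n - 4)).ncard : ℝ) := by
  obtain ⟨C, hC, G, -, hG⟩ := trace_ratio hq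
  refine ⟨4 * C, by positivity, G, fun n hn => ?_⟩
  have key : ∀ m : ℕ, m ≤ 4 → Real.exp (-(m * C * n)) * ((traceSet q n).ncard : ℝ) ≤
      ((traceSet q (n - m)).ncard : ℝ) := by
    intro m hm
    induction m with
    | zero => simp
    | succ m ih =>
      have h1 := ih (by omega)
      have h2 := hG (n - m) (by omega)
      have h3 : Real.exp (-(C * n)) ≤ Real.exp (-(C * ((n - m : ℕ) : ℝ))) := by
        apply Real.exp_le_exp.2
        have : ((n - m : ℕ) : ℝ) ≤ n := by exact_mod_cast Nat.sub_le n m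
        have := mul_le_mul_of_nonneg_left this hC.le
        linarith
      have e1 : Real.exp (-(((m + 1 : ℕ) : ℝ) * C * n)) =
          Real.exp (-(C * n)) * Real.exp (-(m * C * n)) := by
        rw [← Real.exp_add]
        congr 1
        push_cast
        ring
      rw [e1, mul_assoc, show n - (m + 1) = n - m - 1 by omega]
      calc Real.exp (-(C * n)) * (Real.exp (-(m * C * n)) * ((traceSet q n).ncard : ℝ))
          ≤ Real.exp (-(C * n)) * ((traceSet q (n - m)).ncard : ℝ) :=
            mul_le_mul_of_nonneg_left h1 (Real.exp_pos _).le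
        _ ≤ Real.exp (-(C * ((n - m : ℕ) : ℝ))) * ((traceSet q (n - m)).ncard : ℝ) :=
            mul_le_mul_of_nonneg_right h3 (Nat.cast_nonneg _)
        _ ≤ _ := h2
  have h := key 4 le_rfl
  exact_mod_cast h

/-- E5: the share of the tuples with `ww q ∣ h i`. -/
theorem share_lower {q : ℕ} (hq : 16 ≤ q) : ∃ C : ℝ, 0 < C ∧ ∃ G : ℕ, ∀ (k : ℕ) (g : Fin k → ℕ)
    (i : Fin k), G ≤ g i →
    Real.exp (-(C * g i)) *
      (({h : Fin k → ℤ[X] | ∀ j, h j ∈ traceSet q (g j)}.ncard : ℕ) : ℝ) ≤
      (({h : Fin k → ℤ[X] | (∀ j, h j ∈ traceSet q (g j)) ∧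
        ∃ u, IsTrace q (g i - 4) u ∧ h i = ww q * u}.ncard : ℕ) : ℝ) := by
  classical
  obtain ⟨C, hC, G, hG⟩ := trace_ratio4 hq
  refine ⟨C, hC, G + 4, fun k g i hi => ?_⟩
  have hfin : ∀ n, (traceSet q n).Finite := fun n => traceSet_finite q n
  -- the finsets
  set T : Fin k → Finset ℤ[X] := fun j => (hfin (g j)).toFinset with hT
  set U : Finset ℤ[X] := ((hfin (g i - 4)).toFinset).image (fun h => ww q * h) with hU
  have hinj : Function.Injective fun h : ℤ[X] => ww q * h := fun a b hab =>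
    mul_left_cancel₀ (isTrace_ww (q := q) (by omega)).1.ne_zero hab
  have hUc : (U.card : ℝ) = ((traceSet q (g i - 4)).ncard : ℝ) := by
    rw [hU, Finset.card_image_of_injective _ hinj, ← Set.ncard_eq_toFinset_card _ (hfin _)]
  have hTc : ∀ j, ((T j).card : ℝ) = ((traceSet q (g j)).ncard : ℝ) := fun j => by
    rw [hT, ← Set.ncard_eq_toFinset_card _ (hfin _)]
  have hall : (({h : Fin k → ℤ[X] | ∀ j, h j ∈ traceSet q (g j)}.ncard : ℕ) : ℝ) =
      ∏ j, ((T j).card : ℝ) := by
    have h1 : {h : Fin k → ℤ[X] | ∀ j, h j ∈ traceSet q (g j)} = ↑(Fintype.piFinset T) := by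
      ext h
      rw [Finset.mem_coe, Fintype.mem_piFinset]
      exact forall_congr' fun j => (Set.Finite.mem_toFinset (hfin _)).symm
    rw [h1, Set.ncard_coe_finset, Fintype.card_piFinset]
    push_cast
    rfl
  have hsub : ((Fintype.piFinset (Function.update T i U) : Finset (Fin k → ℤ[X])) :
      Set (Fin k → ℤ[X])) ⊆
      {h : Fin k → ℤ[X] | (∀ j, h j ∈ traceSet q (g j)) ∧ ∃ u, IsTrace q (g i - 4) u ∧ h i = ww q * u} := by
    intro h hh
    rw [Finset.mem_coe, Fintype.mem_piFinset] at hh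
    have hi' := hh i
    rw [Function.update_self, hU, Finset.mem_image] at hi'
    obtain ⟨u, hu, hui⟩ := hi'
    rw [Set.Finite.mem_toFinset] at hu
    have hu' : IsTrace q (g i - 4) u := hu
    refine ⟨fun j => ?_, u, hu', hui.symm⟩
    · by_cases hj : j = i
      · subst hj
        rw [← hui]
        have := isTrace_mul (isTrace_ww (q := q) (by omega)) hu'
        rwa [show 4 + (g j - 4) = g j by omega] at this
      · have := hh j
        rw [Function.update_of_ne hj, hT] at this
        exact (Set.Finite.mem_toFinset (hfin _)).1 this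
  have hbig : (∏ j, ((Function.update T i U j).card : ℝ)) ≤
      (({h : Fin k → ℤ[X] | (∀ j, h j ∈ traceSet q (g j)) ∧ ∃ u, IsTrace q (g i - 4) u ∧ h i = ww q * u}.ncard : ℕ) : ℝ) := by
    have hfinb : {h : Fin k → ℤ[X] | (∀ j, h j ∈ traceSet q (g j)) ∧ ∃ u, IsTrace q (g i - 4) u ∧ h i = ww q * u}.Finite := by
      have h1 : {h : Fin k → ℤ[X] | ∀ j, h j ∈ traceSet q (g j)} = ↑(Fintype.piFinset T) := by
        ext h
        rw [Finset.mem_coe, Fintype.mem_piFinset]
        exact forall_congr' fun j => (Set.Finite.mem_toFinset (hfin _)).symm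
      refine Set.Finite.subset (s := {h : Fin k → ℤ[X] | ∀ j, h j ∈ traceSet q (g j)}) ?_
        fun h hh => hh.1
      rw [h1]
      exact Finset.finite_toSet _
    have h2 := Set.ncard_le_ncard hsub hfinb
    rw [Set.ncard_coe_finset, Fintype.card_piFinset] at h2
    exact_mod_cast h2
  refine le_trans ?_ hbig
  rw [hall]
  rw [← Finset.mul_prod_erase Finset.univ _ (Finset.mem_univ i),
    ← Finset.mul_prod_erase Finset.univ (fun j => ((Function.update T i U j).card : ℝ))
      (Finset.mem_univ i)]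
  have h3 : ∏ j ∈ Finset.univ.erase i, ((Function.update T i U j).card : ℝ) =
      ∏ j ∈ Finset.univ.erase i, ((T j).card : ℝ) := by
    refine Finset.prod_congr rfl fun j hj => ?_
    rw [Function.update_of_ne (Finset.ne_of_mem_erase hj)]
  rw [h3, Function.update_self, hUc, hTc, ← mul_assoc]
  exact mul_le_mul_of_nonneg_right (hG (g i) (by omega)) (Finset.prod_nonneg fun j _ => Nat.cast_nonneg _)

end Pool.Agent.Helper19.EX
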